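import Pool.Agent.H29.UDP.TLat

/-!
# BCT: the two point function of the box is continuous in `b`
-/

set_option autoImplicit false

open MeasureTheory Filter Topology
open scoped ENNReal InnerProductSpace

namespace Pool.Agent.H36.UDP

open Pool.Agent.H43.DPC (V)
open Pool.Agent.H29.UDP

/-- the energy as a function of `b` -/
theorem gH_shift {ι : Type} [Fintype ι] (J : ι → ι → ℝ) (g : ι → ℝ) (b b' : ℝ) (φ : ι → ℝ) :
    gH J g (fun _ => b') φ = gH J g (fun _ => b) φ + (b' - b) * ∑ x, φ x ^ 2 := by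
  unfold gH
  rw [Finset.sum_add_distrib, Finset.sum_add_distrib, ← Finset.mul_sum, ← Finset.mul_sum]
  ring

theorem gH_cont {ι : Type} [Fintype ι] (J : ι → ι → ℝ) (g b : ι → ℝ) :
    Continuous (fun φ : ι → ℝ => gH J g b φ) := by
  unfold gH
  fun_prop

/-- the general statement: integrals with respect to the unnormalised weight -/
theorem tend_int (hGLW : T_GLW) {ι : Type} [Fintype ι] (J : ι → ι → ℝ) (g : ι → ℝ)
    (hg : ∀ x, 0 < g x) (b : ℝ) (F : (ι → ℝ) → ℝ) (hF : Continuous F) (C : ℝ)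
    (hC : ∀ φ, |F φ| ≤ C * Real.exp (∑ x, φ x ^ 2)) :
    Tendsto (fun b' : ℝ => ∫ φ : ι → ℝ, F φ * Real.exp (-gH J g (fun _ => b') φ)) (𝓝 b)
      (𝓝 (∫ φ : ι → ℝ, F φ * Real.exp (-gH J g (fun _ => b) φ))) := by
  obtain ⟨h1, -, -, -, -⟩ := hGLW ι J g (fun _ => b) hg
  refine tendsto_integral_filter_of_dominated_convergence
    (fun φ => C * Real.exp (2 * (∑ x, φ x ^ 2) - gH J g (fun _ => b) φ)) ?_ ?_
    ((h1 2).const_mul C) ?_
  · refine Eventually.of_forall fun b' => Continuous.aestronglyMeasurable ?_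
    have := gH_cont J g (fun _ => b')
    fun_prop
  · have hb : ∀ᶠ b' in 𝓝 b, b' ∈ Metric.ball b 1 := Metric.ball_mem_nhds b one_pos
    refine hb.mono fun b' hb' => Eventually.of_forall fun φ => ?_
    have h0 : 0 ≤ ∑ x, φ x ^ 2 := Finset.sum_nonneg fun x _ => sq_nonneg _
    have h2 : -1 < b' - b := by
      have := (abs_lt.1 (by simpa [Real.dist_eq] using Metric.mem_ball.1 hb' : |b' - b| < 1)).1
      exact this
    have h3 : -gH J g (fun _ => b') φ ≤ (∑ x, φ x ^ 2) - gH J g (fun _ => b) φ := by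
      rw [gH_shift J g b b' φ]
      have h4 : 0 ≤ (b' - b + 1) * ∑ x, φ x ^ 2 := mul_nonneg (by linarith) h0
      linarith
    have h5 : 0 ≤ C := by
      by_contra hneg
      have h6 := hC 0
      have h7 := abs_nonneg (F 0)
      have h8 : C * Real.exp (∑ x, (0 : ι → ℝ) x ^ 2) < 0 :=
        mul_neg_of_neg_of_pos (not_le.1 hneg) (Real.exp_pos _)
      linarith
    rw [norm_mul, Real.norm_eq_abs, Real.norm_eq_abs, abs_of_pos (Real.exp_pos _)]
    calc |F φ| * Real.exp (-gH J g (fun _ => b') φ)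
        ≤ (C * Real.exp (∑ x, φ x ^ 2)) *
            Real.exp ((∑ x, φ x ^ 2) - gH J g (fun _ => b) φ) :=
          mul_le_mul (hC φ) (Real.exp_le_exp.2 h3) (Real.exp_pos _).le
            (mul_nonneg h5 (Real.exp_pos _).le)
      _ = C * Real.exp (2 * (∑ x, φ x ^ 2) - gH J g (fun _ => b) φ) := by
          rw [mul_assoc, ← Real.exp_add]
          congr 2
          ring
  · refine Eventually.of_forall fun φ => ?_
    have h2 : (fun b' : ℝ => F φ * Real.exp (-gH J g (fun _ => b') φ)) =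
        fun b' : ℝ => F φ * Real.exp (-(gH J g (fun _ => b) φ + (b' - b) * ∑ x, φ x ^ 2)) := by
      funext b'
      rw [gH_shift J g b b' φ]
    rw [h2]
    have h3 : F φ * Real.exp (-gH J g (fun _ => b) φ) =
        F φ * Real.exp (-(gH J g (fun _ => b) φ + (b - b) * ∑ x, φ x ^ 2)) := by
      rw [sub_self, zero_mul, add_zero]
    rw [h3]
    have h4 : Continuous fun b' : ℝ =>
        F φ * Real.exp (-(gH J g (fun _ => b) φ + (b' - b) * ∑ x, φ x ^ 2)) := by fun_prop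
    exact h4.tendsto b

theorem pf_BCT (hGLW : T_GLW) : T_BCT := by
  intro d L δ κ κ' s g b hg c
  unfold bgibbs
  have h4 : ∀ (b' : ℝ) (F : (Bx d L → ℝ) → ℝ),
      ∫ φ, F φ ∂(glaw (bJ δ κ κ' s) (fun _ : Bx d L => g) (fun _ => b')) =
      (∫ φ, F φ * Real.exp (-gH (bJ δ κ κ' s) (fun _ : Bx d L => g) (fun _ => b') φ)) /
        ∫ φ : Bx d L → ℝ, Real.exp (-gH (bJ δ κ κ' s) (fun _ : Bx d L => g) (fun _ => b') φ) := by
    intro b' F
    obtain ⟨-, -, -, h4, -⟩ := hGLW (Bx d L) (bJ δ κ κ' s) (fun _ => g) (fun _ => b') (fun _ => hg)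
    exact h4 F
  have hZ : 0 < ∫ φ : Bx d L → ℝ,
      Real.exp (-gH (bJ δ κ κ' s) (fun _ : Bx d L => g) (fun _ => b) φ) :=
    (hGLW (Bx d L) (bJ δ κ κ' s) (fun _ => g) (fun _ => b) (fun _ => hg)).2.1
  have e1 : (fun b' : ℝ => ∫ φ : Bx d L → ℝ, (∑ x, c x * φ x) ^ 2
      ∂(glaw (bJ δ κ κ' s) (fun _ => g) (fun _ => b'))) = fun b' : ℝ =>
      (∫ φ : Bx d L → ℝ, (∑ x, c x * φ x) ^ 2 *
        Real.exp (-gH (bJ δ κ κ' s) (fun _ : Bx d L => g) (fun _ => b') φ)) /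
        ∫ φ : Bx d L → ℝ, 1 *
          Real.exp (-gH (bJ δ κ κ' s) (fun _ : Bx d L => g) (fun _ => b') φ) := by
    funext b'
    rw [h4 b' fun φ => (∑ x, c x * φ x) ^ 2]
    simp only [one_mul]
  have e2 : ∫ φ : Bx d L → ℝ, (∑ x, c x * φ x) ^ 2
      ∂(glaw (bJ δ κ κ' s) (fun _ => g) (fun _ => b)) =
      (∫ φ : Bx d L → ℝ, (∑ x, c x * φ x) ^ 2 *
        Real.exp (-gH (bJ δ κ κ' s) (fun _ : Bx d L => g) (fun _ => b) φ)) /
        ∫ φ : Bx d L → ℝ, 1 *
          Real.exp (-gH (bJ δ κ κ' s) (fun _ : Bx d L => g) (fun _ => b) φ) :=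
    congrFun e1 b
  rw [e1, e2]
  refine Tendsto.div ?_ ?_ ?_
  · refine tend_int hGLW (bJ δ κ κ' s) (fun _ => g) (fun _ => hg) b
      (fun φ => (∑ x, c x * φ x) ^ 2) (by fun_prop) (∑ x, c x ^ 2) fun φ => ?_
    rw [abs_of_nonneg (sq_nonneg _)]
    have h5 := Finset.sum_mul_sq_le_sq_mul_sq Finset.univ c φ
    have h6 : ∑ x, φ x ^ 2 ≤ Real.exp (∑ x, φ x ^ 2) := by
      have := Real.add_one_le_exp (∑ x, φ x ^ 2)
      linarith
    exact h5.trans (mul_le_mul_of_nonneg_left h6 (Finset.sum_nonneg fun x _ => sq_nonneg _))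
  · refine tend_int hGLW (bJ δ κ κ' s) (fun _ => g) (fun _ => hg) b (fun _ => 1)
      continuous_const 1 fun φ => ?_
    rw [abs_one, one_mul]
    exact Real.one_le_exp (Finset.sum_nonneg fun x _ => sq_nonneg _)
  · simp only [one_mul]
    exact hZ.ne'

end Pool.Agent.H36.UDP
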