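import Pool.Agent.H29.UDP.TLat

/-!
# BXM: the correlations increase with the box
-/

set_option autoImplicit false

open MeasureTheory Filter Topology
open scoped ENNReal InnerProductSpace

namespace Pool.Agent.H36.UDP

open Pool.Agent.H43.DPC (V)
open Pool.Agent.H29.UDP

/-- bound for monomials -/
theorem mono_bound {ι : Type} [Fintype ι] {n : ℕ} (p : Fin n → ι) (φ : ι → ℝ) :
    |∏ i, φ (p i)| ≤ ((n : ℝ) + 1) * Real.exp (((n : ℝ) + 1) * ∑ x, φ x ^ 2) := by
  classical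
  have h1 : ∀ i, |φ (p i)| ≤ Real.exp (∑ x, φ x ^ 2) := by
    intro i
    have h2 : φ (p i) ^ 2 ≤ ∑ x, φ x ^ 2 :=
      Finset.single_le_sum (f := fun x => φ x ^ 2) (fun x _ => sq_nonneg _) (Finset.mem_univ _)
    have h3 : φ (p i) ^ 2 + 1 ≤ Real.exp (φ (p i) ^ 2) := Real.add_one_le_exp _
    have h4 : |φ (p i)| ≤ φ (p i) ^ 2 + 1 := by
      have h5 : 0 ≤ (|φ (p i)| - 1) ^ 2 := sq_nonneg _
      have h6 : |φ (p i)| ^ 2 = φ (p i) ^ 2 := sq_abs _
      have h7 : 0 ≤ |φ (p i)| := abs_nonneg _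
      nlinarith
    exact h4.trans (h3.trans (Real.exp_le_exp.2 h2))
  have h0 : 0 ≤ ∑ x, φ x ^ 2 := Finset.sum_nonneg fun x _ => sq_nonneg _
  rw [Finset.abs_prod]
  have h2 : ∏ i : Fin n, |φ (p i)| ≤ ∏ _i : Fin n, Real.exp (∑ x, φ x ^ 2) :=
    Finset.prod_le_prod (fun i _ => abs_nonneg _) fun i _ => h1 i
  refine h2.trans ?_
  rw [Finset.prod_const, Finset.card_univ, Fintype.card_fin, ← Real.exp_nat_mul]
  have h3 : Real.exp ((n : ℝ) * ∑ x, φ x ^ 2) ≤ Real.exp (((n : ℝ) + 1) * ∑ x, φ x ^ 2) := by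
    refine Real.exp_le_exp.2 (mul_le_mul_of_nonneg_right (by linarith) h0)
  have h4 : (1 : ℝ) ≤ (n : ℝ) + 1 := by
    have : (0 : ℝ) ≤ n := Nat.cast_nonneg n
    linarith
  have h5 := Real.exp_pos (((n : ℝ) + 1) * ∑ x, φ x ^ 2)
  nlinarith

/-- integrability of monomials -/
theorem mono_int (hGLW : T_GLW) {ι : Type} [Fintype ι] (J : ι → ι → ℝ) (g b : ι → ℝ)
    (hg : ∀ x, 0 < g x) {n : ℕ} (p : Fin n → ι) :
    Integrable (fun φ : ι → ℝ => ∏ i, φ (p i)) (glaw J g b) := by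
  obtain ⟨-, -, -, -, h5⟩ := hGLW ι J g b hg
  exact h5 _ ((n : ℝ) + 1) (by fun_prop) (mono_bound p)

/-- expansion of the product of linear forms -/
theorem expand {ι : Type} [Fintype ι] {n : ℕ} (a : Fin n → ι → ℝ) (φ : ι → ℝ) :
    ∏ i, ∑ x, a i x * φ x = ∑ p : Fin n → ι, (∏ i, a i (p i)) * ∏ i, φ (p i) := by
  classical
  rw [Finset.prod_univ_sum, Fintype.piFinset_univ]
  refine Finset.sum_congr rfl fun p _ => ?_
  rw [Finset.prod_mul_distrib]

/-- the integral of the product of linear forms -/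
theorem expand_int (hGLW : T_GLW) {ι : Type} [Fintype ι] (J : ι → ι → ℝ) (g b : ι → ℝ)
    (hg : ∀ x, 0 < g x) {n : ℕ} (a : Fin n → ι → ℝ) :
    ∫ φ : ι → ℝ, ∏ i, ∑ x, a i x * φ x ∂(glaw J g b) =
      ∑ p : Fin n → ι, (∏ i, a i (p i)) * ∫ φ : ι → ℝ, ∏ i, φ (p i) ∂(glaw J g b) := by
  classical
  simp_rw [expand a]
  rw [integral_finsetSum _ fun p _ => (mono_int hGLW J g b hg p).const_mul _]
  refine Finset.sum_congr rfl fun p _ => ?_
  rw [integral_const_mul]

/-- the sign changes -/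
def sg {ι : Type} (s : ι → ℝ) (hs : ∀ x, s x * s x = 1) : (ι → ℝ) ≃ᵐ (ι → ℝ) where
  toFun φ := fun x => s x * φ x
  invFun φ := fun x => s x * φ x
  left_inv φ := by
    funext x
    show s x * (s x * φ x) = φ x
    rw [← mul_assoc, hs, one_mul]
  right_inv φ := by
    funext x
    show s x * (s x * φ x) = φ x
    rw [← mul_assoc, hs, one_mul]
  measurable_toFun := by
    show Measurable fun φ : ι → ℝ => fun x => s x * φ x
    fun_prop
  measurable_invFun := by
    show Measurable fun φ : ι → ℝ => fun x => s x * φ x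
    fun_prop

theorem sg_mp {ι : Type} [Fintype ι] (s : ι → ℝ) (hs : ∀ x, s x * s x = 1) :
    MeasurePreserving (sg s hs) (volume : Measure (ι → ℝ)) volume := by
  refine volume_preserving_pi (f := fun x t => s x * t) fun x => ?_
  have h1 : s x = 1 ∨ s x = -1 := mul_self_eq_one_iff.1 (hs x)
  rcases h1 with h | h
  · rw [h]
    have : (fun t : ℝ => (1 : ℝ) * t) = id := by
      funext t
      simp
    rw [this]
    exact MeasurePreserving.id _
  · rw [h]
    have : (fun t : ℝ => (-1 : ℝ) * t) = Neg.neg := by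
      funext t
      simp
    rw [this]
    exact Measure.measurePreserving_neg volume

/-- sign changes preserve the decoupled law -/
theorem sg_int (hGLW : T_GLW) {ι : Type} [Fintype ι] (g b : ι → ℝ) (hg : ∀ x, 0 < g x)
    (s : ι → ℝ) (hs : ∀ x, s x * s x = 1) (F : (ι → ℝ) → ℝ) :
    ∫ φ : ι → ℝ, F (fun x => s x * φ x) ∂(glaw (fun _ _ => 0) g b) =
      ∫ φ : ι → ℝ, F φ ∂(glaw (fun _ _ => 0) g b) := by
  obtain ⟨-, -, -, h4, -⟩ := hGLW ι (fun _ _ => 0) g b hg
  rw [h4, h4]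
  congr 1
  rw [← (sg_mp s hs).integral_comp' (g := fun φ => F φ * Real.exp (-gH (fun _ _ => 0) g b φ))]
  refine integral_congr_ae (Eventually.of_forall fun φ => ?_)
  have e1 : ∀ x, (s x * φ x) ^ 2 = φ x ^ 2 := fun x => by
    rw [mul_pow, sq (s x), hs, one_mul]
  have e2 : ∀ x, (s x * φ x) ^ 4 = φ x ^ 4 := fun x => by
    rw [show (4 : ℕ) = 2 * 2 by norm_num, pow_mul, pow_mul, e1]
  have e3 : gH (fun _ _ => 0) g b (fun x => s x * φ x) = gH (fun _ _ => 0) g b φ := by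
    unfold gH
    simp only [zero_mul, Finset.sum_const_zero, mul_zero, sub_zero, e1, e2]
  show F (fun x => s x * φ x) * Real.exp (-gH (fun _ _ => 0) g b φ) =
    F (fun x => s x * φ x) * Real.exp (-gH (fun _ _ => 0) g b (fun x => s x * φ x))
  rw [e3]

/-- the moments of the decoupled law are nonnegative -/
theorem mom_zero (hGLW : T_GLW) {ι : Type} [Fintype ι] (g b : ι → ℝ) (hg : ∀ x, 0 < g x)
    {n : ℕ} (p : Fin n → ι) :
    0 ≤ ∫ φ : ι → ℝ, ∏ i, φ (p i) ∂(glaw (fun _ _ => 0) g b) := by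
  classical
  by_cases hp : ∀ x, Even (Finset.univ.filter fun i => p i = x).card
  · refine integral_nonneg fun φ => ?_
    show 0 ≤ ∏ i, φ (p i)
    rw [Finset.prod_comp φ p]
    exact Finset.prod_nonneg fun x _ => (hp x).pow_nonneg _
  · push Not at hp
    obtain ⟨x, hx⟩ := hp
    rw [Nat.not_even_iff_odd] at hx
    have h1 := sg_int hGLW g b hg (fun y => if y = x then -1 else 1)
      (fun y => by split_ifs <;> norm_num) (fun φ => ∏ i, φ (p i))
    have h2 : ∀ φ : ι → ℝ, ∏ i, (if p i = x then (-1 : ℝ) else 1) * φ (p i) =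
        -∏ i, φ (p i) := by
      intro φ
      rw [Finset.prod_mul_distrib, Finset.prod_ite, Finset.prod_const, Finset.prod_const_one,
        mul_one, hx.neg_one_pow, neg_one_mul]
    have h3 : ∫ φ : ι → ℝ, ∏ i, (if p i = x then (-1 : ℝ) else 1) * φ (p i)
        ∂(glaw (fun _ _ => 0) g b) = ∫ φ : ι → ℝ, ∏ i, φ (p i) ∂(glaw (fun _ _ => 0) g b) := h1
    rw [integral_congr_ae (Eventually.of_forall h2), integral_neg] at h3
    linarith

/-- the first inequality of Griffiths -/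
theorem mom_nonneg (hMO2 : T_MO2) (hGLW : T_GLW) {ι : Type} [Fintype ι] (J : ι → ι → ℝ)
    (g b : ι → ℝ) (hg : ∀ x, 0 < g x) (hJ : ∀ x y, 0 ≤ J x y) {n : ℕ} (p : Fin n → ι) :
    0 ≤ ∫ φ : ι → ℝ, ∏ i, φ (p i) ∂(glaw J g b) := by
  classical
  have h := hMO2 ι (fun _ _ => 0) J g b b hg (fun _ _ => le_refl _) hJ (fun _ => le_refl _) n
    (fun i x => if x = p i then 1 else 0) (fun i x => by split_ifs <;> norm_num)
  simp only [ite_mul, one_mul, zero_mul, Finset.sum_ite_eq', Finset.mem_univ, if_true] at h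
  exact (mom_zero hGLW g b hg p).trans h

/-- monotonicity in the coefficients -/
theorem coef_mono (hMO2 : T_MO2) (hGLW : T_GLW) {ι : Type} [Fintype ι] (J : ι → ι → ℝ)
    (g b : ι → ℝ) (hg : ∀ x, 0 < g x) (hJ : ∀ x y, 0 ≤ J x y) {n : ℕ} (a a' : Fin n → ι → ℝ)
    (ha : ∀ i x, 0 ≤ a i x) (haa : ∀ i x, a i x ≤ a' i x) :
    ∫ φ : ι → ℝ, ∏ i, ∑ x, a i x * φ x ∂(glaw J g b) ≤
      ∫ φ : ι → ℝ, ∏ i, ∑ x, a' i x * φ x ∂(glaw J g b) := by
  rw [expand_int hGLW J g b hg, expand_int hGLW J g b hg]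
  refine Finset.sum_le_sum fun p _ => ?_
  refine mul_le_mul_of_nonneg_right ?_ (mom_nonneg hMO2 hGLW J g b hg hJ p)
  exact Finset.prod_le_prod (fun i _ => ha i _) fun i _ => haa i _

/-- the embedding of the smaller box -/
def eb {d L L' : ℕ} (z : Fin d → ℤ) (h : ∀ j, |z j| + L ≤ L') (x : Bx d L) : Bx d L' :=
  fun j => ⟨(((x j : ℕ) : ℤ) + z j + ((L' : ℤ) - L)).toNat, by
    have h1 := h j
    have h2 := (x j).2
    have h3 := abs_le.1 (le_refl |z j|)
    omega⟩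

theorem eb_val {d L L' : ℕ} (z : Fin d → ℤ) (h : ∀ j, |z j| + L ≤ L') (x : Bx d L) (j : Fin d) :
    (((eb z h x j : Fin (2 * L')) : ℕ) : ℤ) = ((x j : ℕ) : ℤ) + z j + ((L' : ℤ) - L) := by
  have h1 := h j
  have h3 := abs_le.1 (le_refl |z j|)
  show (((((x j : ℕ) : ℤ) + z j + ((L' : ℤ) - L)).toNat : ℕ) : ℤ) = _
  omega

theorem eb_inj {d L L' : ℕ} (z : Fin d → ℤ) (h : ∀ j, |z j| + L ≤ L') :
    Function.Injective (eb z h) := by
  intro x y hxy
  funext j
  have h1 := eb_val z h x j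
  have h2 := eb_val z h y j
  rw [hxy] at h1
  apply Fin.ext
  omega

theorem eb_pos {d L L' : ℕ} (z : Fin d → ℤ) (h : ∀ j, |z j| + L ≤ L') (δ : ℝ) (x : Bx d L) :
    bpos δ (eb z h x) = bpos δ x + ipt δ z := by
  unfold bpos ipt
  rw [← WithLp.toLp_add]
  congr 1
  funext j
  have h1 : (((eb z h x j : Fin (2 * L')) : ℕ) : ℝ) = ((x j : ℕ) : ℝ) + z j + ((L' : ℝ) - L) := by
    exact_mod_cast congrArg (fun t : ℤ => (t : ℝ)) (eb_val z h x j)
  show δ * ((((eb z h x j : Fin (2 * L')) : ℕ) : ℝ) - L' + 1 / 2) =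
    δ * (((x j : ℕ) : ℝ) - L + 1 / 2) + δ * (z j : ℝ)
  rw [h1]
  ring

theorem bJ_nonneg {δ κ κ' s : ℝ} (hκ : 0 ≤ κ) (hκ' : 0 ≤ κ') {d L : ℕ} (x y : Bx d L) :
    0 ≤ bJ δ κ κ' s x y := by
  unfold bJ
  refine add_nonneg ?_ ?_
  · split_ifs
    · exact le_refl _
    · exact mul_nonneg hκ (Real.rpow_nonneg (norm_nonneg _) _)
  · split_ifs
    · exact hκ'
    · exact le_refl _

theorem eb_bJ {d L L' : ℕ} (z : Fin d → ℤ) (h : ∀ j, |z j| + L ≤ L') (δ κ κ' s : ℝ)
    (x y : Bx d L) : bJ δ κ κ' s (eb z h x) (eb z h y) = bJ δ κ κ' s x y := by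
  unfold bJ
  rw [eb_pos, eb_pos, add_sub_add_right_eq_sub]
  congr 1
  by_cases hxy : x = y
  · rw [if_pos hxy, if_pos (by rw [hxy])]
  · rw [if_neg hxy, if_neg fun h' => hxy (eb_inj z h h')]

theorem pf_BXM (hMO2 : T_MO2) (hSUB : T_SUB) (hGLW : T_GLW) : T_BXM := by
  classical
  intro d L L' z δ κ κ' s g b w hδ hκ hκ' hg hw hz n f hf
  set e := eb z hz with he
  have hei : Function.Injective e := eb_inj z hz
  set J₀ : Bx d L' → Bx d L' → ℝ := fun x y =>
    if x ∈ Set.range e ∧ y ∈ Set.range e then bJ δ κ κ' s x y else 0 with hJ₀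
  have h1 := hSUB (Bx d L) (Bx d L') e (bJ δ κ κ' s) J₀ (fun _ => g) (fun _ => b) (fun _ => g)
    (fun _ => b) hei (fun _ => hg)
    (fun x y => by
      show (if e x ∈ Set.range e ∧ e y ∈ Set.range e then bJ δ κ κ' s (e x) (e y) else 0) = _
      rw [if_pos ⟨⟨x, rfl⟩, ⟨y, rfl⟩⟩]
      exact eb_bJ z hz δ κ κ' s x y)
    (fun x y hxy => by
      show (if x ∈ Set.range e ∧ y ∈ Set.range e then bJ δ κ κ' s x y else 0) = 0
      rw [if_neg]
      rintro ⟨ha, hb⟩
      rcases hxy with h | h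
      · exact h ha
      · exact h hb)
    (fun _ => rfl) (fun _ => rfl)
  have hJ0 : ∀ x y, 0 ≤ J₀ x y := fun x y => by
    show 0 ≤ if x ∈ Set.range e ∧ y ∈ Set.range e then bJ δ κ κ' s x y else 0
    split_ifs
    · exact bJ_nonneg hκ hκ' _ _
    · exact le_refl _
  have hJ1 : ∀ x y, J₀ x y ≤ bJ δ κ κ' s x y := fun x y => by
    show (if x ∈ Set.range e ∧ y ∈ Set.range e then bJ δ κ κ' s x y else 0) ≤ _
    split_ifs
    · exact le_refl _
    · exact bJ_nonneg hκ hκ' _ _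
  -- the left side as an integral over the larger box
  have h2 : ∫ φ : Bx d L → ℝ, ∏ i, ∑ x, w * φ x * f i (bpos δ x + ipt δ z)
      ∂(bgibbs d L δ κ κ' s g b) =
      ∫ φ : Bx d L' → ℝ, ∏ i, ∑ x, w * φ (e x) * f i (bpos δ x + ipt δ z)
        ∂(glaw J₀ (fun _ => g) (fun _ => b)) := by
    unfold bgibbs
    rw [← h1, integral_map]
    · exact Measurable.aemeasurable (by fun_prop)
    · refine Continuous.aestronglyMeasurable ?_
      fun_prop
  have h3 : ∀ φ : Bx d L' → ℝ, ∏ i, ∑ x, w * φ (e x) * f i (bpos δ x + ipt δ z) =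
      ∏ i, ∑ x, (if x ∈ Set.range e then w * f i (bpos δ x) else 0) * φ x := by
    intro φ
    refine Finset.prod_congr rfl fun i _ => ?_
    have h4 : ∑ x, (if x ∈ Set.range e then w * f i (bpos δ x) else 0) * φ x =
        ∑ x ∈ Finset.univ.map ⟨e, hei⟩,
          (if x ∈ Set.range e then w * f i (bpos δ x) else 0) * φ x := by
      symm
      refine Finset.sum_subset (Finset.subset_univ _) fun x _ hx => ?_
      rw [if_neg, zero_mul]
      rintro ⟨y, rfl⟩
      exact hx (Finset.mem_map.2 ⟨y, Finset.mem_univ _, rfl⟩)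
    rw [h4, Finset.sum_map]
    refine Finset.sum_congr rfl fun x _ => ?_
    show w * φ (e x) * f i (bpos δ x + ipt δ z) =
      (if e x ∈ Set.range e then w * f i (bpos δ (e x)) else 0) * φ (e x)
    rw [if_pos ⟨x, rfl⟩, he, eb_pos]
    ring
  rw [h2, integral_congr_ae (Eventually.of_forall h3)]
  have h5 := hMO2 (Bx d L') J₀ (bJ δ κ κ' s) (fun _ => g) (fun _ => b) (fun _ => b)
    (fun _ => hg) hJ0 hJ1 (fun _ => le_refl _) n
    (fun i x => if x ∈ Set.range e then w * f i (bpos δ x) else 0)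
    (fun i x => by
      split_ifs
      · exact mul_nonneg hw (hf i _)
      · exact le_refl _)
  refine h5.trans ?_
  have h6 := coef_mono hMO2 hGLW (bJ δ κ κ' s) (fun _ => g) (fun _ => b) (fun _ => hg)
    (fun x y => bJ_nonneg hκ hκ' x y)
    (fun i (x : Bx d L') => if x ∈ Set.range e then w * f i (bpos δ x) else 0)
    (fun i x => w * f i (bpos δ x))
    (fun i x => by
      split_ifs
      · exact mul_nonneg hw (hf i _)
      · exact le_refl _)
    (fun i x => by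
      split_ifs
      · exact le_refl _
      · exact mul_nonneg hw (hf i _))
  refine h6.trans (le_of_eq ?_)
  unfold bgibbs
  refine integral_congr_ae (Eventually.of_forall fun φ => ?_)
  refine Finset.prod_congr rfl fun i _ => Finset.sum_congr rfl fun x _ => ?_
  ring

end Pool.Agent.H36.UDP
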